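import Pool.Agent.Work.MP_8db9c5_an.Example

/-!
# Jamesifications with isometry group `{±1} × S_n`

`X` is a reflexive real Banach space with a normalized unconditional basis `b`, indexed by
`0, 1, 2, …`, and `E` with the sequence `e` is its Jamesification `J(b_i)` (`IsJamesification`).
The vectors `dl e 0 = - e 0` and `dl e m = e (m - 1) - e m` (`m ≥ 1`) span a dense subspace of
`J(b_i)`.

The hypotheses on the basis are:
* smoothness: the norm is differentiable at `b p` in the direction `b i` for `i < p`, with
  derivative zero;
* separation: `‖b u - b q‖ > 1` for `u < q`, `n ≤ q`;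
* (second and third part) the first `n` basis vectors enter the norm only by the maximum of their
  coefficients.

First part: under the first two hypotheses every isometry is, up to a sign, a permutation of
`dl e 0, …, dl e (n-1)`, and it fixes all other `dl e m`. Second part: under all three hypotheses
all these permutations occur, and the isometry group is `{±1} × S_n`. Third part: the space
`ℓ_∞^n ⊕_2 ℓ_2` with its unit vector basis (described by the norm of the finite combinations of the
basis vectors) is reflexive and its Jamesification has isometry group `{±1} × S_n`.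
-/

open Topology Filter Set

universe u v

namespace Pool.Agent.Work.MP_8db9c5_an.Kept.SymmetricGroup

open Pool.Agent.Work.MP_8db9c5_an

theorem result (n : ℕ) (hn1 : 1 ≤ n) :
    (∀ (X : Type u) [NormedAddCommGroup X] [NormedSpace ℝ X] [CompleteSpace X]
      (b : UnconditionalSchauderBasis ℕ ℝ X),
      IsReflexive X → (∀ i, ‖b i‖ = 1) → SmoothAt b → (∀ u q : ℕ, u < q → n ≤ q → 1 < ‖b u - b q‖) →
      ∀ (E : Type v) [NormedAddCommGroup E] [NormedSpace ℝ E] [CompleteSpace E] (e : ℕ → E),
      IsJamesification b.basis e →
        IsometriesPermute e n ∧ (HeadSup b n → IsomGroupEqSym e n)) ∧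
    ∃ (X : Type) (_ : NormedAddCommGroup X) (_ : NormedSpace ℝ X) (_ : CompleteSpace X)
      (b : UnconditionalSchauderBasis ℕ ℝ X), IsReflexive X ∧
      (∀ (a : ℕ → ℝ) (N : ℕ), ‖∑ i ∈ Finset.range (n + N), a i • b i‖ ^ 2 =
        ‖fun i : Fin n => a i‖ ^ 2 + ∑ i ∈ Finset.range N, a (n + i) ^ 2) ∧
      ∀ (E : Type v) [NormedAddCommGroup E] [NormedSpace ℝ E] [CompleteSpace E] (e : ℕ → E),
        IsJamesification b.basis e → IsomGroupEqSym e n := by
  refine ⟨?_, XEx n, inferInstance, inferInstance, inferInstance, bEx n, XEx_refl n,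
    norm_formula_Ex n, ?_⟩
  · intro X _ _ _ b hrefl hn hS hsep E _ _ _ e hJ
    exact ⟨fun T => group_structure hrefl hn hJ hS hsep T,
      fun hH => group_equiv hrefl hn hJ hS hn1 hH hsep⟩
  · intro E _ _ _ e hJ
    exact group_equiv (b := bEx n) (XEx_refl n) (norm_bEx n) hJ (smooth_Ex n) hn1
      (head_Ex n hn1) (sep_Ex n)

end Pool.Agent.Work.MP_8db9c5_an.Kept.SymmetricGroup
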